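import Pool.Agent.H21.GH.K4

/-!
# [H72 LP ONE] MP_8923e7_nt: residue classes of the gaps between consecutive primes

`SynGap q m`: every interval of some fixed length contains a number `h ≡ m (mod q)` which is, infinitely often, the gap
between two consecutive primes.  `four`: if `gcd(q, Q)` divides `m2`, the classes `m1 mod q` and `m2 mod Q` cannot both
fail (even classes for even moduli).

Proof: four cells `0`, `M2`, `M1`, `M1 + M2` (plus `W i`, `i < n`), where `M2 ≡ m2 (mod Q)`, `q ∣ M2`, lies in a bad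
interval of `(Q, m2)` and `M1 ≡ m1 (mod q)` in a bad interval of `(q, m1)`: all differences are bad, against `k4_gap`.
-/

namespace Pool.Agent.H72.LP

open Finset Pool.Agent.H21.SH Pool.Agent.H21.GH Pool.Agent.H21.QT

/-- every interval of length `T` contains a gap between consecutive primes which occurs infinitely often and is
congruent to `m` modulo `q` -/
def SynGap (q m : ℕ) : Prop :=
  ∃ T : ℕ, ∀ X : ℕ, ∃ h : ℕ, X ≤ h ∧ h ≤ X + T ∧ h ≡ m [MOD q] ∧ GapE h

theorem not_syn {q m : ℕ} (h : ¬ SynGap q m) (T : ℕ) :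
    ∃ X : ℕ, ∀ h : ℕ, X ≤ h → h ≤ X + T → (q : ℤ) ∣ (h : ℤ) - m → ¬ GapE h := by
  unfold SynGap at h
  push Not at h
  obtain ⟨X, hX⟩ := h T
  refine ⟨X, fun h h1 h2 h3 => hX h h1 h2 ?_⟩
  rw [Nat.modEq_iff_dvd]
  rw [← dvd_neg, neg_sub]
  exact h3

/-- a solution of two congruences in a given interval -/
theorem crt_in (a b u v W Y : ℕ) (hW : 0 < W) (ha : a ∣ W) (hb : b ∣ W) (h : u ≡ v [MOD Nat.gcd a b]) :
    ∃ M : ℕ, Y ≤ M ∧ M < Y + W ∧ M ≡ u [MOD a] ∧ M ≡ v [MOD b] := by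
  obtain ⟨z, hz1, hz2⟩ := Nat.chineseRemainder' h
  -- `z + W t` with the right size
  refine ⟨Y + (z + (W - Y % W)) % W, by omega, ?_, ?_, ?_⟩
  · have := Nat.mod_lt (z + (W - Y % W)) hW
    omega
  all_goals
    have key : Y + (z + (W - Y % W)) % W ≡ z [MOD W] := by
      have h1 : (z + (W - Y % W)) % W ≡ z + (W - Y % W) [MOD W] := Nat.mod_modEq _ _
      have h2 : Y ≡ Y % W [MOD W] := (Nat.mod_modEq _ _).symm
      have h3 : Y + (z + (W - Y % W)) % W ≡ Y % W + (z + (W - Y % W)) [MOD W] := h2.add h1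
      have h4 : Y % W + (z + (W - Y % W)) = z + W := by
        have := Nat.mod_lt Y hW
        omega
      rw [h4] at h3
      exact h3.trans (by simp [Nat.ModEq])
  · exact (key.of_dvd ha).trans hz1
  · exact (key.of_dvd hb).trans hz2

/-- four even numbers which miss a class modulo `3` are admissible -/
theorem adT_four (a : Fin 4 → ℤ) (h2 : ∀ j, (2 : ℤ) ∣ a j) (h3 : ∃ b : ℤ, ∀ j, ¬ (3 : ℤ) ∣ b + a j) :
    AdT a := by
  intro p hp
  rcases Nat.lt_or_ge p 5 with h5 | h5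
  · have hp2 : p = 2 ∨ p = 3 := by
      have := hp.two_le
      interval_cases p
      · exact Or.inl rfl
      · exact Or.inr rfl
      · exfalso; revert hp; norm_num
    rcases hp2 with rfl | rfl
    · refine ⟨1, fun j hj => ?_⟩
      have h1 : ((2 : ℕ) : ℤ) ∣ 1 := (Int.dvd_add_left (by exact_mod_cast h2 j)).1 hj
      norm_num at h1
    · obtain ⟨b, hb⟩ := h3
      exact ⟨b, fun j hj => hb j (by exact_mod_cast hj)⟩
  · have : NeZero p := ⟨hp.pos.ne'⟩
    obtain ⟨z, hz⟩ : ∃ z : ZMod p, z ∉ (univ : Finset (Fin 4)).image (fun j => ((a j : ℤ) : ZMod p)) := by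
      by_contra hno
      push Not at hno
      have h1 : (univ : Finset (ZMod p)) ⊆ (univ : Finset (Fin 4)).image (fun j => ((a j : ℤ) : ZMod p)) :=
        fun z _ => hno z
      have h2 := card_le_card h1
      rw [card_univ, ZMod.card] at h2
      have h3 := (card_image_le (s := (univ : Finset (Fin 4))) (f := fun j => ((a j : ℤ) : ZMod p)))
      rw [card_univ, Fintype.card_fin] at h3
      omega
    refine ⟨-(z.val : ℤ), fun j hj => hz ?_⟩
    rw [mem_image]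
    refine ⟨j, mem_univ j, ?_⟩
    have h1 : ((-(z.val : ℤ) + a j : ℤ) : ZMod p) = 0 :=
      (ZMod.intCast_zmod_eq_zero_iff_dvd _ p).2 hj
    push_cast at h1
    rw [ZMod.natCast_val, ZMod.cast_id', id] at h1
    linear_combination h1

/-- two residue classes modulo `3`, one of them `0` -/
theorem three_two (M : ℤ) : ∃ b : ℤ, ∀ x : ℤ, (3 : ℤ) ∣ x ∨ (3 : ℤ) ∣ x - M → ¬ (3 : ℤ) ∣ b + x := by
  have h : M % 3 = 0 ∨ M % 3 = 1 ∨ M % 3 = 2 := by omega
  rcases h with h | h | h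
  · exact ⟨1, fun x hx hd => by omega⟩
  · exact ⟨1, fun x hx hd => by omega⟩
  · exact ⟨2, fun x hx hd => by omega⟩

/-- enlarging the modulus to an even one -/
theorem even_mod (Q q m : ℕ) (h2 : 2 ∣ Q → 2 ∣ m) (hg : Nat.gcd Q q ∣ m) :
    ∃ q' : ℕ, q ∣ q' ∧ 2 ∣ q' ∧ q' ∣ 2 * q ∧ Nat.gcd Q q' ∣ m := by
  by_cases hq : 2 ∣ q
  · exact ⟨q, dvd_rfl, hq, Dvd.intro_left _ rfl, hg⟩
  · refine ⟨2 * q, Dvd.intro_left _ rfl, Dvd.intro _ rfl, dvd_rfl, ?_⟩
    have hc : Nat.Coprime 2 q := (Nat.Prime.coprime_iff_not_dvd Nat.prime_two).2 hq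
    rw [Nat.Coprime.gcd_mul Q hc]
    refine Nat.Coprime.mul_dvd_of_dvd_of_dvd ?_ ?_ hg
    · exact Nat.Coprime.coprime_dvd_left (Nat.gcd_dvd_right _ _)
        (Nat.Coprime.coprime_dvd_right (Nat.gcd_dvd_right _ _) hc)
    · by_cases hQ : 2 ∣ Q
      · exact (Nat.gcd_dvd_right _ _).trans (h2 hQ)
      · have : Nat.gcd Q 2 = 1 := Nat.Coprime.symm ((Nat.Prime.coprime_iff_not_dvd Nat.prime_two).2 hQ)
        rw [this]
        exact one_dvd _

theorem four (q Q m1 m2 : ℕ) (hq : 0 < q) (hQ : 0 < Q) (h1 : 2 ∣ q → 2 ∣ m1) (h2 : 2 ∣ Q → 2 ∣ m2)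
    (hg : Nat.gcd Q q ∣ m2) (hb1 : ¬ SynGap q m1) (hb2 : ¬ SynGap Q m2) : False := by
  classical
  obtain ⟨δ, C, hδ, hC, hK⟩ := k4_gap
  obtain ⟨n, hn1, hnC⟩ : ∃ n : ℕ, 1 ≤ n ∧ C < (n : ℝ) ^ δ := by
    have h := (tendsto_rpow_atTop hδ).comp tendsto_natCast_atTop_atTop
    obtain ⟨n0, hn0⟩ := Filter.eventually_atTop.1 (h.eventually_gt_atTop C)
    exact ⟨n0 + 1, by omega, hn0 _ (by omega)⟩
  obtain ⟨W, hW⟩ : ∃ W : ℕ, W = 6 * q * Q := ⟨_, rfl⟩
  have hW0 : 0 < W := by rw [hW]; positivity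
  have hqW : q ∣ W := ⟨6 * Q, by rw [hW]; ring⟩
  have hQW : Q ∣ W := ⟨6 * q, by rw [hW]; ring⟩
  have h6W : 6 ∣ W := ⟨q * Q, by rw [hW]; ring⟩
  -- the inner level
  obtain ⟨X2, hX2⟩ := not_syn hb2 (2 * (W * n) + W)
  obtain ⟨q', hq'1, hq'2, hq'3, hq'4⟩ := even_mod Q q m2 h2 hg
  obtain ⟨M2, hM2a, hM2b, hM2c, hM2d⟩ := crt_in Q q' m2 0 W (X2 + W * n) hW0 hQW
    (hq'3.trans ⟨3 * Q, by rw [hW]; ring⟩) ((Nat.modEq_zero_iff_dvd).2 hq'4)
  -- the outer level
  obtain ⟨X1, hX1⟩ := not_syn hb1 (2 * (M2 + W * n) + W)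
  obtain ⟨u, hu1, hu2, hu3, hu4⟩ : ∃ u : ℕ, 2 ∣ u ∧ u ∣ 6 ∧ (3 ∣ q ∨ 3 ∣ u) ∧ Nat.gcd q u ∣ m1 := by
    have hg2 : Nat.gcd q 2 ∣ m1 := by
      by_cases h : 2 ∣ q
      · exact (Nat.gcd_dvd_right _ _).trans (h1 h)
      · have : Nat.gcd q 2 = 1 := Nat.Coprime.symm ((Nat.Prime.coprime_iff_not_dvd Nat.prime_two).2 h)
        rw [this]
        exact one_dvd _
    by_cases h3 : 3 ∣ q
    · exact ⟨2, dvd_rfl, by norm_num, Or.inl h3, hg2⟩
    · refine ⟨6, by norm_num, dvd_rfl, Or.inr (by norm_num), ?_⟩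
      have hc : Nat.Coprime 3 q := (Nat.Prime.coprime_iff_not_dvd Nat.prime_three).2 h3
      have : Nat.gcd q 6 = Nat.gcd q 2 := by
        have e : (6 : ℕ) = 2 * 3 := by norm_num
        rw [e, Nat.Coprime.gcd_mul_right_cancel_right 2 hc]
      rw [this]
      exact hg2
  obtain ⟨M1, hM1a, hM1b, hM1c, hM1d⟩ := crt_in q u m1 0 W (X1 + (M2 + W * n)) hW0 hqW
    (hu2.trans h6W) ((Nat.modEq_zero_iff_dvd).2 hu4)
  have hM1e : u ∣ M1 := (Nat.modEq_zero_iff_dvd).1 hM1d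
  have hM2e : q' ∣ M2 := (Nat.modEq_zero_iff_dvd).1 hM2d
  have e1 : (q : ℤ) ∣ (M1 : ℤ) - m1 := by
    have := (Nat.modEq_iff_dvd).1 hM1c
    rw [← dvd_neg, neg_sub]
    exact this
  have e2 : (Q : ℤ) ∣ (M2 : ℤ) - m2 := by
    have := (Nat.modEq_iff_dvd).1 hM2c
    rw [← dvd_neg, neg_sub]
    exact this
  have e3 : (q : ℤ) ∣ (M2 : ℤ) := by exact_mod_cast hq'1.trans hM2e
  have e4 : (q : ℤ) ∣ (W : ℤ) := by exact_mod_cast hqW
  have e5 : (Q : ℤ) ∣ (W : ℤ) := by exact_mod_cast hQW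
  have e6 : (2 : ℤ) ∣ (M1 : ℤ) := by exact_mod_cast hu1.trans hM1e
  have e7 : (2 : ℤ) ∣ (M2 : ℤ) := by exact_mod_cast hq'2.trans hM2e
  have e8 : (6 : ℤ) ∣ (W : ℤ) := by exact_mod_cast h6W
  have e9 : (3 : ℤ) ∣ (M1 : ℤ) ∨ (3 : ℤ) ∣ (M2 : ℤ) := by
    rcases hu3 with h | h
    · right
      exact_mod_cast (h.trans hq'1).trans hM2e
    · left
      exact_mod_cast h.trans hM1e
  -- the cells
  let base : Fin 4 → ℕ := ![0, M2, M1, M1 + M2]
  let A : Fin 4 → Finset ℕ := fun j => (range n).image (fun i => base j + W * i)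
  have hAcard : ∀ j, (A j).card = n := by
    intro j
    rw [card_image_of_injective, card_range]
    intro i i' hii
    have h3 : base j + W * i = base j + W * i' := hii
    have h4 : W * i = W * i' := by omega
    exact Nat.eq_of_mul_eq_mul_left hW0 h4
  have h0 := hK n A hn1 (fun j => (hAcard j).le)
  have hfull : (Fintype.piFinset A).filter (fun a => AdT (fun j => (a j : ℤ)) ∧
      ∀ i j, a i < a j → ¬ GapE (a j - a i)) = Fintype.piFinset A := by
    rw [filter_eq_self]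
    intro a ha
    rw [Fintype.mem_piFinset] at ha
    have ha' : ∀ j, ∃ t : ℕ, t ≤ W * n ∧ W ∣ t ∧ a j = base j + t := by
      intro j
      obtain ⟨i, hi, hij⟩ := mem_image.1 (ha j)
      rw [mem_range] at hi
      exact ⟨W * i, Nat.mul_le_mul_left _ hi.le, Dvd.intro _ rfl, hij.symm⟩
    choose t ht1 ht2 ht3 using ha'
    have b0 : a 0 = t 0 := by rw [ht3 0]; simp [base]
    have b1 : a 1 = M2 + t 1 := by rw [ht3 1]; simp [base]
    have b2 : a 2 = M1 + t 2 := by rw [ht3 2]; simp [base]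
    have b3 : a 3 = M1 + M2 + t 3 := by rw [ht3 3]; simp [base]
    have ht2' : ∀ j, (W : ℤ) ∣ (t j : ℤ) := fun j => by exact_mod_cast ht2 j
    constructor
    · apply adT_four
      · intro j
        have h6 : (2 : ℤ) ∣ (t j : ℤ) := (dvd_trans (by norm_num) e8).trans (ht2' j)
        fin_cases j
        · show (2 : ℤ) ∣ (a 0 : ℤ)
          rw [b0]; exact h6
        · show (2 : ℤ) ∣ (a 1 : ℤ)
          rw [b1]; push_cast; exact dvd_add e7 h6
        · show (2 : ℤ) ∣ (a 2 : ℤ)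
          rw [b2]; push_cast; exact dvd_add e6 h6
        · show (2 : ℤ) ∣ (a 3 : ℤ)
          rw [b3]; push_cast; exact dvd_add (dvd_add e6 e7) h6
      · have h6 : ∀ j, (3 : ℤ) ∣ (t j : ℤ) := fun j => (dvd_trans (by norm_num) e8).trans (ht2' j)
        rcases e9 with h3 | h3
        · obtain ⟨b, hb⟩ := three_two (M2 : ℤ)
          refine ⟨b, fun j => hb _ ?_⟩
          fin_cases j
          · left
            show (3 : ℤ) ∣ (a 0 : ℤ)
            rw [b0]; exact h6 0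
          · right
            show (3 : ℤ) ∣ (a 1 : ℤ) - M2
            rw [b1]; push_cast
            have := h6 1
            have e : (M2 : ℤ) + (t 1 : ℤ) - M2 = t 1 := by ring
            rw [e]; exact this
          · left
            show (3 : ℤ) ∣ (a 2 : ℤ)
            rw [b2]; push_cast; exact dvd_add h3 (h6 2)
          · right
            show (3 : ℤ) ∣ (a 3 : ℤ) - M2
            rw [b3]; push_cast
            have e : (M1 : ℤ) + M2 + (t 3 : ℤ) - M2 = M1 + t 3 := by ring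
            rw [e]; exact dvd_add h3 (h6 3)
        · obtain ⟨b, hb⟩ := three_two (M1 : ℤ)
          refine ⟨b, fun j => hb _ ?_⟩
          fin_cases j
          · left
            show (3 : ℤ) ∣ (a 0 : ℤ)
            rw [b0]; exact h6 0
          · left
            show (3 : ℤ) ∣ (a 1 : ℤ)
            rw [b1]; push_cast; exact dvd_add h3 (h6 1)
          · right
            show (3 : ℤ) ∣ (a 2 : ℤ) - M1
            rw [b2]; push_cast
            have e : (M1 : ℤ) + (t 2 : ℤ) - M1 = t 2 := by ring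
            rw [e]; exact h6 2
          · right
            show (3 : ℤ) ∣ (a 3 : ℤ) - M1
            rw [b3]; push_cast
            have e : (M1 : ℤ) + M2 + (t 3 : ℤ) - M1 = M2 + t 3 := by ring
            rw [e]; exact dvd_add h3 (h6 3)
    · -- inner differences
      have inner : ∀ x y : ℕ, x < y → (∃ s s' : ℕ, s ≤ W * n ∧ s' ≤ W * n ∧ W ∣ s ∧ W ∣ s' ∧
          (y : ℤ) - x = M2 + s' - s) → ¬ GapE (y - x) := by
        rintro x y hxy ⟨s, s', hs, hs', hWs, hWs', he⟩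
        have hc : ((y - x : ℕ) : ℤ) = M2 + s' - s := by rw [Nat.cast_sub hxy.le]; exact he
        refine hX2 (y - x) (by omega) (by omega) ?_
        rw [hc]
        have e : (M2 : ℤ) + s' - s - m2 = (M2 - m2) + s' - s := by ring
        rw [e]
        exact dvd_sub (dvd_add e2 (e5.trans (by exact_mod_cast hWs'))) (e5.trans (by exact_mod_cast hWs))
      have outer : ∀ x y : ℕ, x < y → (∃ s s' r : ℤ, |s| ≤ (W * n : ℕ) ∧ (W : ℤ) ∣ s ∧
          (r = 0 ∨ r = M2 ∨ r = -M2) ∧ (y : ℤ) - x = M1 + r + s ∧ s' = s) → ¬ GapE (y - x) := by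
        rintro x y hxy ⟨s, s', r, hs, hWs, hr, he, -⟩
        have hc : ((y - x : ℕ) : ℤ) = M1 + r + s := by rw [Nat.cast_sub hxy.le]; exact he
        have hs2 := abs_le.1 hs
        have hr2 : (q : ℤ) ∣ r := by
          rcases hr with h | h | h
          · rw [h]; exact dvd_zero _
          · rw [h]; exact e3
          · rw [h]; exact (dvd_neg).2 e3
        have hr3 : -(M2 : ℤ) ≤ r ∧ r ≤ M2 := by
          rcases hr with h | h | h <;> constructor <;> omega
        refine hX1 (y - x) (by omega) (by omega) ?_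
        rw [hc]
        have e : (M1 : ℤ) + r + s - m1 = (M1 - m1) + r + s := by ring
        rw [e]
        exact dvd_add (dvd_add e1 hr2) (e4.trans hWs)
      have habs : ∀ i j, |(t i : ℤ) - t j| ≤ (W * n : ℕ) := by
        intro i j
        have h3 := ht1 i
        have h4 := ht1 j
        rw [abs_le]
        constructor <;> omega
      have hdv : ∀ i j, (W : ℤ) ∣ (t i : ℤ) - t j := fun i j => dvd_sub (ht2' i) (ht2' j)
      have l0 := ht1 0
      have l1 := ht1 1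
      have l2 := ht1 2
      have l3 := ht1 3
      have k01 : a 0 < a 1 → ¬ GapE (a 1 - a 0) := fun h => inner _ _ h
        ⟨t 0, t 1, l0, l1, ht2 0, ht2 1, by rw [b0, b1]; push_cast; ring⟩
      have k23 : a 2 < a 3 → ¬ GapE (a 3 - a 2) := fun h => inner _ _ h
        ⟨t 2, t 3, l2, l3, ht2 2, ht2 3, by rw [b2, b3]; push_cast; ring⟩
      have k02 : a 0 < a 2 → ¬ GapE (a 2 - a 0) := fun h => outer _ _ h
        ⟨_, _, 0, habs 2 0, hdv 2 0, Or.inl rfl, by rw [b0, b2]; push_cast; ring, rfl⟩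
      have k03 : a 0 < a 3 → ¬ GapE (a 3 - a 0) := fun h => outer _ _ h
        ⟨_, _, M2, habs 3 0, hdv 3 0, Or.inr (Or.inl rfl), by rw [b0, b3]; push_cast; ring, rfl⟩
      have k12 : a 1 < a 2 → ¬ GapE (a 2 - a 1) := fun h => outer _ _ h
        ⟨_, _, -M2, habs 2 1, hdv 2 1, Or.inr (Or.inr rfl), by rw [b1, b2]; push_cast; ring, rfl⟩
      have k13 : a 1 < a 3 → ¬ GapE (a 3 - a 1) := fun h => outer _ _ h
        ⟨_, _, 0, habs 3 1, hdv 3 1, Or.inl rfl, by rw [b1, b3]; push_cast; ring, rfl⟩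
      have n10 : ¬ a 1 < a 0 := by rw [b0, b1]; omega
      have n20 : ¬ a 2 < a 0 := by rw [b0, b2]; omega
      have n30 : ¬ a 3 < a 0 := by rw [b0, b3]; omega
      have n21 : ¬ a 2 < a 1 := by rw [b1, b2]; omega
      have n31 : ¬ a 3 < a 1 := by rw [b1, b3]; omega
      have n32 : ¬ a 3 < a 2 := by rw [b2, b3]; omega
      intro i j
      fin_cases i <;> fin_cases j
      · exact fun h => absurd h (lt_irrefl _)
      · exact k01
      · exact k02
      · exact k03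
      · exact fun h => absurd h n10
      · exact fun h => absurd h (lt_irrefl _)
      · exact k12
      · exact k13
      · exact fun h => absurd h n20
      · exact fun h => absurd h n21
      · exact fun h => absurd h (lt_irrefl _)
      · exact k23
      · exact fun h => absurd h n30
      · exact fun h => absurd h n31
      · exact fun h => absurd h n32
      · exact fun h => absurd h (lt_irrefl _)
  rw [hfull, Fintype.card_piFinset, prod_congr rfl (fun j _ => hAcard j), prod_const, card_univ,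
    Fintype.card_fin] at h0
  have hn0 : (0 : ℝ) < n := by exact_mod_cast hn1
  rw [Real.rpow_sub hn0] at h0
  have h5 : (n : ℝ) ^ (4 : ℝ) = (n : ℝ) ^ 4 := by
    rw [← Real.rpow_natCast]
    norm_num
  rw [h5, mul_div_assoc', le_div_iff₀ (Real.rpow_pos_of_pos hn0 δ)] at h0
  push_cast at h0
  have h6 : (0 : ℝ) < (n : ℝ) ^ 4 := by positivity
  nlinarith [mul_lt_mul_of_pos_left hnC h6]

/-- If the class `m₀` modulo `q` fails, then every class `m` modulo `Q` with `gcd(q, Q) ∣ m` is good. -/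
theorem syn_of_bad (q m₀ : ℕ) (hq : 0 < q) (h0 : 2 ∣ q → 2 ∣ m₀) (hb : ¬ SynGap q m₀) (Q m : ℕ)
    (hQ : 0 < Q) (h : 2 ∣ Q → 2 ∣ m) (hg : Nat.gcd Q q ∣ m) : SynGap Q m := by
  by_contra hcon
  exact four q Q m₀ m hq hQ h0 h hg hb hcon

/-- There is a `q` such that every class `m` modulo `Q` with `gcd(Q, q) ∣ m` is good. -/
theorem exists_modulus : ∃ q : ℕ, 0 < q ∧ ∀ Q m : ℕ, 0 < Q → (2 ∣ Q → 2 ∣ m) → Nat.gcd Q q ∣ m →
    SynGap Q m := by
  by_cases h : ∃ q m₀ : ℕ, 0 < q ∧ (2 ∣ q → 2 ∣ m₀) ∧ ¬ SynGap q m₀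
  · obtain ⟨q, m₀, h1, h2, h3⟩ := h
    exact ⟨q, h1, fun Q m hQ h hg => syn_of_bad q m₀ h1 h2 h3 Q m hQ h hg⟩
  · push Not at h
    exact ⟨1, one_pos, fun Q m hQ h2 _ => h Q m hQ h2⟩

/-- All primes with at most one exception. -/
theorem all_but_one : ∃ p₀ : ℕ, ∀ p : ℕ, p.Prime → p ≠ p₀ → ∀ e m : ℕ, (p = 2 → 2 ∣ m) →
    SynGap (p ^ e) m := by
  by_cases h : ∃ p₀ : ℕ, p₀.Prime ∧ ∃ e m : ℕ, (p₀ = 2 → 2 ∣ m) ∧ ¬ SynGap (p₀ ^ e) m
  · obtain ⟨p₀, hp₀, e₀, m₀, h1, h2⟩ := h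
    refine ⟨p₀, fun p hp hne e m hm => ?_⟩
    have key : ∀ (p e m : ℕ), p.Prime → (p = 2 → 2 ∣ m) → 2 ∣ p ^ e → 2 ∣ m := by
      intro p e m hp hm hd
      have h3 : 2 ∣ p := Nat.prime_two.dvd_of_dvd_pow hd
      exact hm ((Nat.prime_dvd_prime_iff_eq Nat.prime_two hp).1 h3).symm
    refine syn_of_bad (p₀ ^ e₀) m₀ (pow_pos hp₀.pos _) (key p₀ e₀ m₀ hp₀ h1) h2 (p ^ e) m
      (pow_pos hp.pos _) (key p e m hp hm) ?_
    have : Nat.Coprime (p ^ e) (p₀ ^ e₀) := Nat.Coprime.pow _ _ ((Nat.coprime_primes hp hp₀).2 hne)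
    rw [this]
    exact one_dvd _
  · push Not at h
    exact ⟨0, fun p hp _ e m hm => h p hp e m hm⟩

end Pool.Agent.H72.LP
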