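import Pool.Agent.H21.CP.Med
import Pool.Agent.H21.CP.Bc
import Pool.Agent.H30.CP.Tree

/-!
# [H72 LP TWO] MP_8923e7_nt: prime tuples in residue classes

`chain`: let `13 (k+1)^t > 50 r k^t`, and let `q_i`, `m^(i)` (`i < t`) be moduli and locally admissible classes of
`k`-tuples of shifts such that `gcd(q_j, q_i)` divides all `m^(i)_l` for `i < j`.  Then for one of the `i` every
`k`-tuple of integers can be changed by a bounded amount to a tuple in the class `m^(i)` modulo `q_i` for which the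
prime tuples conjecture holds (in one colour).

Proof: tree of height `t` with `k + 1` children at every vertex; level `i` uses a bad tuple of `(q_i, m^(i))`.
-/

namespace Pool.Agent.H72.LP

open Finset Pool.Agent.H21.QT Pool.Agent.H21.CP

/-- for some colour `i` and infinitely many `N` the numbers `N, N + a_1, ..., N + a_k` are primes of colour `i` -/
def Good {r k : ℕ} (c : ℕ → Fin r) (a : Fin k → ℤ) : Prop :=
  ∃ i : Fin r, {N : ℕ | (N.Prime ∧ c N = i) ∧ ∀ j, PC c i N (a j)}.Infinite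

/-- every `x` is within `T` of a good tuple of distinct nonzero integers in the class `m` modulo `q` -/
def SynK {r k : ℕ} (c : ℕ → Fin r) (q : ℕ) (m : Fin k → ℤ) : Prop :=
  ∃ T : ℕ, ∀ x : Fin k → ℤ, ∃ a : Fin k → ℤ, ((∀ j, |a j - x j| ≤ T) ∧ (∀ j, (q : ℤ) ∣ a j - m j) ∧
    Function.Injective (Fin.cons 0 a : Fin (k + 1) → ℤ)) ∧ Good c a

/-- for every prime `p ∣ q` the numbers `0, m_1, ..., m_k` do not represent all classes modulo `p` -/
def Loc {k : ℕ} (q : ℕ) (m : Fin k → ℤ) : Prop :=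
  ∀ p : ℕ, p.Prime → p ∣ q → ∃ b : ℤ, ¬ (p : ℤ) ∣ b ∧ ∀ j, ¬ (p : ℤ) ∣ b + m j

/-- the leaves of the tree -/
def Lf (k : ℕ) : ℕ → Type
  | 0 => Unit
  | n + 1 => Fin (k + 1) × Lf k n

instance instFintypeLf (k : ℕ) : ∀ n, Fintype (Lf k n)
  | 0 => inferInstanceAs (Fintype Unit)
  | n + 1 =>
    haveI := instFintypeLf k n
    inferInstanceAs (Fintype (Fin (k + 1) × Lf k n))

instance instDecLf (k : ℕ) : ∀ n, DecidableEq (Lf k n)
  | 0 => inferInstanceAs (DecidableEq Unit)
  | n + 1 =>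
    haveI := instDecLf k n
    inferInstanceAs (DecidableEq (Fin (k + 1) × Lf k n))

theorem card_Lf (k : ℕ) : ∀ n, Fintype.card (Lf k n) = (k + 1) ^ n
  | 0 => rfl
  | n + 1 => by
    have h : Fintype.card (Lf k (n + 1)) = Fintype.card (Fin (k + 1) × Lf k n) := rfl
    rw [h, Fintype.card_prod, Fintype.card_fin, card_Lf k n, pow_succ, mul_comm]

/-- `y` is a prime of colour `i` -/
def PY {r : ℕ} (c : ℕ → Fin r) (i : Fin r) (y : ℤ) : Prop := y.toNat.Prime ∧ c y.toNat = i

theorem gcd_lcm_dist (q a b : ℕ) (hq : q ≠ 0) (ha : a ≠ 0) (hb : b ≠ 0) :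
    Nat.gcd q (Nat.lcm a b) = Nat.lcm (Nat.gcd q a) (Nat.gcd q b) := by
  have h1 : Nat.gcd q a ≠ 0 := Nat.gcd_ne_zero_left hq
  have h2 : Nat.gcd q b ≠ 0 := Nat.gcd_ne_zero_left hq
  have h3 : Nat.lcm a b ≠ 0 := Nat.lcm_ne_zero ha hb
  apply Nat.eq_of_factorization_eq (Nat.gcd_ne_zero_left hq) (Nat.lcm_ne_zero h1 h2)
  intro p
  rw [Nat.factorization_gcd hq h3, Nat.factorization_lcm ha hb, Nat.factorization_lcm h1 h2,
    Nat.factorization_gcd hq ha, Nat.factorization_gcd hq hb]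
  simp only [Finsupp.inf_apply, Finsupp.sup_apply]
  exact inf_sup_left _ _ _

/-- simultaneous congruences: `m` modulo `q` and `0` modulo finitely many numbers -/
theorem crt_many (q : ℕ) (hq : 0 < q) (m : ℤ) (S : Finset ℕ) (hS : ∀ u ∈ S, 0 < u)
    (h : ∀ u ∈ S, ((Nat.gcd q u : ℕ) : ℤ) ∣ m) : ∃ z : ℤ, (q : ℤ) ∣ z - m ∧ ∀ u ∈ S, (u : ℤ) ∣ z := by
  classical
  obtain ⟨A, hA0, hA1, hA2⟩ : ∃ A : ℕ, 0 < A ∧ (∀ u ∈ S, u ∣ A) ∧ ((Nat.gcd q A : ℕ) : ℤ) ∣ m := by
    induction S using Finset.induction_on with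
    | empty => exact ⟨1, one_pos, fun u hu => absurd hu (notMem_empty u), by simp⟩
    | insert a s has ih =>
      obtain ⟨A, hA0, hA1, hA2⟩ := ih (fun u hu => hS u (mem_insert_of_mem hu))
        (fun u hu => h u (mem_insert_of_mem hu))
      have ha := hS a (mem_insert_self a s)
      refine ⟨Nat.lcm a A, Nat.lcm_pos ha hA0, ?_, ?_⟩
      · intro u hu
        rcases mem_insert.1 hu with h | h
        · rw [h]
          exact Nat.dvd_lcm_left _ _
        · exact (hA1 u h).trans (Nat.dvd_lcm_right _ _)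
      · rw [gcd_lcm_dist q a A hq.ne' ha.ne' hA0.ne']
        have h1 := h a (mem_insert_self a s)
        rw [Int.natCast_dvd] at h1 hA2 ⊢
        exact Nat.lcm_dvd h1 hA2
  -- Bezout
  obtain ⟨w, hw⟩ := hA2
  refine ⟨(A : ℤ) * (Nat.gcdB q A * w), ?_, fun u hu => Dvd.dvd.mul_right (by exact_mod_cast hA1 u hu) _⟩
  have h3 := Nat.gcd_eq_gcd_ab q A
  refine ⟨-(Nat.gcdA q A * w), ?_⟩
  rw [hw, h3]
  ring

open Classical in
/-- the conclusion of the tree construction for the levels `0, ..., n - 1` -/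
structure TreeOK {r k : ℕ} (c : ℕ → Fin r) (K0 : ℕ) (B0 : Finset ℤ) (q : ℕ → ℕ) (t n : ℕ)
    (pos : Lf k n → ℤ) : Prop where
  dv : ∀ i, n ≤ i → i < t → ∀ d, (q i : ℤ) ∣ pos d
  ad : ∀ p : ℕ, p.Prime → p ≤ K0 → ∃ b : ℤ, ∀ d, ¬ (p : ℤ) ∣ b + pos d
  dj : ∀ d d', d ≠ d' → ∀ β ∈ B0, ∀ β' ∈ B0, β + pos d ≠ β' + pos d'
  ht : ∃ N0 : ℤ, ∀ z : ℤ, N0 ≤ z → ∀ i : Fin r,
    (univ.filter (fun d => ∃ β ∈ B0, PY c i (z + (β + pos d)))).card ≤ k ^ n

theorem tree_exists {r k : ℕ} (c : ℕ → Fin r) (K0 : ℕ) (B0 : Finset ℤ) (W : ℕ)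
    (hB : ∀ β ∈ B0, (W : ℤ) ∣ β) (t : ℕ) (q : ℕ → ℕ) (hq : ∀ i, 0 < q i) (hqW : ∀ i < t, q i ∣ W)
    (m : ℕ → Fin k → ℤ) (hloc : ∀ i < t, Loc (q i) (m i))
    (hg : ∀ i j, i < j → j < t → ∀ l, ((Nat.gcd (q i) (q j) : ℕ) : ℤ) ∣ m i l)
    (hbad : ∀ i < t, ¬ SynK c (q i) (m i)) :
    ∀ n ≤ t, ∃ pos : Lf k n → ℤ, TreeOK c K0 B0 q t n pos := by
  classical
  intro n
  induction n with
  | zero =>
    intro _
    refine ⟨fun _ => 0, ⟨fun i _ _ d => dvd_zero _, fun p hp _ => ⟨1, fun d hd => ?_⟩, ?_, 0, ?_⟩⟩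
    · rw [add_zero] at hd
      have h1 : p ∣ 1 := by exact_mod_cast hd
      exact hp.one_lt.ne' (Nat.dvd_one.1 h1)
    · intro d d' hdd
      exact absurd (Subsingleton.elim (α := Unit) d d') hdd
    · intro z _ i
      refine (card_le_univ _).trans (le_of_eq ?_)
      rw [card_Lf, pow_zero, pow_zero]
  | succ n ih =>
    intro hn
    obtain ⟨pos, hT⟩ := ih (by omega)
    have hnt : n < t := hn
    obtain ⟨R, hR⟩ : ∃ R : ℕ, ∀ d, ∀ β ∈ B0, |β + pos d| ≤ R := by
      refine ⟨∑ d : Lf k n, ∑ β ∈ B0, (β + pos d).natAbs, fun d β hβ => ?_⟩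
      have h1 : (β + pos d).natAbs ≤ ∑ β ∈ B0, (β + pos d).natAbs :=
        Finset.single_le_sum (f := fun β : ℤ => (β + pos d).natAbs) (fun _ _ => Nat.zero_le _) hβ
      have h2 : ∑ β ∈ B0, (β + pos d).natAbs ≤ ∑ d : Lf k n, ∑ β ∈ B0, (β + pos d).natAbs :=
        Finset.single_le_sum (f := fun d => ∑ β ∈ B0, (β + pos d).natAbs)
          (fun _ _ => Nat.zero_le _) (Finset.mem_univ d)
      rw [Int.abs_eq_natAbs]
      exact_mod_cast h1.trans h2
    -- the moduli
    obtain ⟨S, hS⟩ : ∃ S : Finset ℕ, S = ((range t).filter (fun j => n < j)).image q ∪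
      (range (K0 + 1)).filter (fun p => p.Prime ∧ ¬ p ∣ q n) := ⟨_, rfl⟩
    have hS0 : ∀ u ∈ S, 0 < u := by
      intro u hu
      rw [hS, mem_union, mem_image, mem_filter] at hu
      rcases hu with ⟨j, _, rfl⟩ | ⟨_, h, _⟩
      · exact hq j
      · exact h.pos
    have hSq : ∀ j, n < j → j < t → q j ∈ S := by
      intro j h1 h2
      rw [hS, mem_union, mem_image]
      exact Or.inl ⟨j, mem_filter.2 ⟨mem_range.2 h2, h1⟩, rfl⟩
    have hSp : ∀ p : ℕ, p.Prime → p ≤ K0 → ¬ p ∣ q n → p ∈ S := by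
      intro p h1 h2 h3
      rw [hS, mem_union, mem_filter, mem_range]
      exact Or.inr ⟨by omega, h1, h3⟩
    have hSg : ∀ u ∈ S, ∀ l, ((Nat.gcd (q n) u : ℕ) : ℤ) ∣ m n l := by
      intro u hu l
      rw [hS, mem_union, mem_image] at hu
      rcases hu with ⟨j, hj, rfl⟩ | hu
      · rw [mem_filter, mem_range] at hj
        exact hg n j hj.2 hj.1 l
      · rw [mem_filter] at hu
        have h1 : Nat.gcd (q n) u = 1 :=
          Nat.Coprime.symm ((Nat.Prime.coprime_iff_not_dvd hu.2.1).2 hu.2.2)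
        rw [h1, Nat.cast_one]
        exact one_dvd _
    obtain ⟨Wn, hWn⟩ : ∃ Wn : ℕ, Wn = q n * ∏ u ∈ S, u := ⟨_, rfl⟩
    have hWn0 : 0 < Wn := by
      rw [hWn]
      exact Nat.mul_pos (hq n) (Finset.prod_pos hS0)
    have hqWn : (q n : ℤ) ∣ (Wn : ℤ) := by
      rw [hWn]
      push_cast
      exact dvd_mul_right _ _
    have huWn : ∀ u ∈ S, (u : ℤ) ∣ (Wn : ℤ) := by
      intro u hu
      have h1 : u ∣ Wn := by
        rw [hWn]
        exact Dvd.dvd.mul_left (Finset.dvd_prod_of_mem (fun u : ℕ => u) hu) _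
      exact_mod_cast h1
    have hWnZ : (0 : ℤ) < Wn := by exact_mod_cast hWn0
    have hres : ∀ l : Fin k, ∃ ρ : ℤ, 0 ≤ ρ ∧ ρ < Wn ∧ (q n : ℤ) ∣ ρ - m n l ∧ ∀ u ∈ S, (u : ℤ) ∣ ρ := by
      intro l
      obtain ⟨z, hz1, hz2⟩ := crt_many (q n) (hq n) (m n l) S hS0 (fun u hu => hSg u hu l)
      have h1 : (Wn : ℤ) ∣ z % Wn - z := by
        refine ⟨-(z / Wn), ?_⟩
        have := Int.emod_add_mul_ediv z Wn
        linarith
      refine ⟨z % Wn, Int.emod_nonneg _ hWnZ.ne', Int.emod_lt_of_pos _ hWnZ, ?_, fun u hu => ?_⟩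
      · have e : z % Wn - m n l = (z % Wn - z) + (z - m n l) := by ring
        rw [e]
        exact dvd_add (hqWn.trans h1) hz1
      · have e : z % Wn = (z % Wn - z) + z := by ring
        rw [e]
        exact dvd_add ((huWn u hu).trans h1) (hz2 u hu)
    choose ρ hρ0 hρ1 hρ2 hρ3 using hres
    obtain ⟨V, hV⟩ : ∃ V : ℕ, V = Wn * (2 * R + 2) := ⟨_, rfl⟩
    have hV0 : 0 < V := by
      rw [hV]
      positivity
    have hWV : (Wn : ℤ) ∣ (V : ℤ) := by
      rw [hV]
      push_cast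
      exact dvd_mul_right _ _
    -- the bad tuple
    have hb := hbad n hnt
    unfold SynK at hb
    push Not at hb
    obtain ⟨x, hx⟩ := hb (2 * (V * (k + 1)) + Wn + 2 * R)
    obtain ⟨x', hx1, hx2, hx3⟩ := Pool.Agent.H30.CP.sep_exists (k + 1) V (Nat.succ_pos k) hV0
      (Fin.cons 0 x)
    obtain ⟨σ, hσ⟩ : ∃ σ : Fin (k + 1) → ℤ, σ = Fin.cons 0 ρ := ⟨_, rfl⟩
    have hσ0 : σ 0 = 0 := by rw [hσ, Fin.cons_zero]
    have hσs : ∀ l : Fin k, σ l.succ = ρ l := fun l => by rw [hσ, Fin.cons_succ]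
    have hσb : ∀ l, 0 ≤ σ l ∧ σ l < Wn := by
      intro l
      refine Fin.cases ?_ (fun l => ?_) l
      · rw [hσ0]
        exact ⟨le_rfl, hWnZ⟩
      · rw [hσs]
        exact ⟨hρ0 l, hρ1 l⟩
    have hσu : ∀ u ∈ S, ∀ l, (u : ℤ) ∣ σ l := by
      intro u hu l
      refine Fin.cases ?_ (fun l => ?_) l
      · rw [hσ0]
        exact dvd_zero _
      · rw [hσs]
        exact hρ3 l u hu
    obtain ⟨M, hM⟩ : ∃ M : Fin (k + 1) → ℤ, M = fun l => x' l - x' 0 + σ l := ⟨_, rfl⟩
    have hMl : ∀ l, M l = x' l - x' 0 + σ l := fun l => by rw [hM]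
    have hM0 : M 0 = 0 := by rw [hMl, hσ0]; ring
    have hMW : ∀ l, (Wn : ℤ) ∣ x' l - x' 0 := fun l => dvd_sub (hWV.trans (hx2 l)) (hWV.trans (hx2 0))
    have hMq : ∀ l : Fin k, (q n : ℤ) ∣ M l.succ - m n l := by
      intro l
      rw [hMl, hσs]
      have e : x' l.succ - x' 0 + ρ l - m n l = (x' l.succ - x' 0) + (ρ l - m n l) := by ring
      rw [e]
      exact dvd_add (hqWn.trans (hMW _)) (hρ2 l)
    have hMu : ∀ u ∈ S, ∀ l, (u : ℤ) ∣ M l := by
      intro u hu l
      rw [hMl]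
      exact dvd_add ((huWn u hu).trans (hMW l)) (hσu u hu l)
    have hMsep : ∀ l l', l ≠ l' → 2 * (R : ℤ) < |M l - M l'| := by
      intro l l' hll
      have h1 := hx3 l l' hll
      have h2 := hσb l
      have h3 := hσb l'
      have e : M l - M l' = (x' l - x' l') + (σ l - σ l') := by rw [hMl, hMl]; ring
      have h4 : |σ l - σ l'| < Wn := by
        rw [abs_lt]
        constructor <;> linarith [h2.1, h2.2, h3.1, h3.2]
      have h5 : |x' l - x' l'| - |σ l - σ l'| ≤ |M l - M l'| := by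
        rw [e]
        have h6 := abs_sub_abs_le_abs_sub (x' l - x' l') (-(σ l - σ l'))
        rw [abs_neg, sub_neg_eq_add] at h6
        exact h6
      have h7 : (V : ℤ) = Wn * (2 * R + 2) := by rw [hV]; push_cast; ring
      have h8 : (1 : ℤ) ≤ Wn := hWnZ
      nlinarith [Int.natCast_nonneg R]
    have hMx : ∀ l : Fin k, |M l.succ - x l| ≤ 2 * (V * (k + 1)) + Wn := by
      intro l
      have h1 := hx1 l.succ
      have h2 := hx1 0
      rw [Fin.cons_succ] at h1
      rw [Fin.cons_zero, sub_zero] at h2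
      have h3 := hσb l.succ
      have h4 := abs_le.1 h1
      have h5 := abs_le.1 h2
      push_cast at h4 h5
      rw [hMl, abs_le]
      constructor <;> linarith [h4.1, h4.2, h5.1, h5.2, h3.1, h3.2]
    have hR' : ∀ d d' : Lf k n, ∀ β ∈ B0, ∀ β' ∈ B0, |(β + pos d) - (β' + pos d')| ≤ 2 * R := by
      intro d d' β hβ β' hβ'
      have h1 := abs_le.1 (hR d β hβ)
      have h2 := abs_le.1 (hR d' β' hβ')
      rw [abs_le]
      constructor <;> linarith [h1.1, h1.2, h2.1, h2.2]
    refine ⟨fun d => M d.1 + pos d.2, ⟨?_, ?_, ?_, ?_⟩⟩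
    · intro i hi hit d
      exact dvd_add (hMu _ (hSq i (by omega) hit) _) (hT.dv i (by omega) hit _)
    · intro p hp hpK
      by_cases hpq : p ∣ q n
      · obtain ⟨b, hb1, hb2⟩ := hloc n hnt p hp hpq
        have hpqZ : (p : ℤ) ∣ (q n : ℤ) := by exact_mod_cast hpq
        refine ⟨b, fun d hd => ?_⟩
        have h1 : (p : ℤ) ∣ pos d.2 := hpqZ.trans (hT.dv n le_rfl hnt _)
        have h2 : (p : ℤ) ∣ b + M d.1 := by
          have e : b + (M d.1 + pos d.2) = (b + M d.1) + pos d.2 := by ring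
          rw [e] at hd
          exact (dvd_add_left h1).1 hd
        obtain ⟨l, hl⟩ : ∃ l, l = d.1 := ⟨_, rfl⟩
        rw [← hl] at h2
        revert h2
        refine Fin.cases ?_ (fun l => ?_) l
        · rw [hM0, add_zero]
          exact hb1
        · intro h2
          apply hb2 l
          have e : b + m n l = (b + M l.succ) - (M l.succ - m n l) := by ring
          rw [e]
          exact dvd_sub h2 (hpqZ.trans (hMq l))
      · obtain ⟨b, hb⟩ := hT.ad p hp hpK
        refine ⟨b, fun d hd => hb d.2 ?_⟩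
        have h1 := hMu p (hSp p hp hpK hpq) d.1
        have e : b + (M d.1 + pos d.2) = (b + pos d.2) + M d.1 := by ring
        rw [e] at hd
        exact (dvd_add_left h1).1 hd
    · intro d d' hdd β hβ β' hβ' he
      by_cases h1 : d.1 = d'.1
      · have h2 : d.2 ≠ d'.2 := by
          intro h2
          exact hdd (Prod.ext h1 h2)
        apply hT.dj d.2 d'.2 h2 β hβ β' hβ'
        rw [h1] at he
        linarith
      · have h2 := hMsep d.1 d'.1 h1
        have h3 := hR' d'.2 d.2 β' hβ' β hβ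
        have e : M d.1 - M d'.1 = (β' + pos d'.2) - (β + pos d.2) := by linarith
        rw [e] at h2
        linarith
    · obtain ⟨N0, hN0⟩ := hT.ht
      -- the finitely many possible tuples
      let Φ := Fin (k + 1) → Lf k n × {β // β ∈ B0}
      let y : Φ → Fin (k + 1) → ℤ := fun φ l => ((φ l).2.1 : ℤ) + (M l + pos (φ l).1)
      let a : Φ → Fin k → ℤ := fun φ j => y φ j.succ - y φ 0
      have hbadφ : ∀ φ : Φ, ¬ Good c (a φ) := by
        intro φ
        refine hx (a φ) ⟨fun j => ?_, fun j => ?_, ?_⟩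
        · have h1 := hR' (φ j.succ).1 (φ 0).1 (φ j.succ).2.1 (φ j.succ).2.2 (φ 0).2.1 (φ 0).2.2
          have h2 := hMx j
          have e : a φ j - x j = (M j.succ - x j) +
              ((((φ j.succ).2.1 : ℤ) + pos (φ j.succ).1) - (((φ 0).2.1 : ℤ) + pos (φ 0).1)) := by
            show ((φ j.succ).2.1 : ℤ) + (M j.succ + pos (φ j.succ).1) -
              (((φ 0).2.1 : ℤ) + (M 0 + pos (φ 0).1)) - x j = _
            rw [hM0]
            ring
          rw [e]
          push_cast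
          calc _ ≤ |M j.succ - x j| + |(((φ j.succ).2.1 : ℤ) + pos (φ j.succ).1) -
              (((φ 0).2.1 : ℤ) + pos (φ 0).1)| := abs_add_le _ _
            _ ≤ _ := by
              push_cast at h2
              linarith
        · have e : a φ j - m n j = (M j.succ - m n j) +
              (((φ j.succ).2.1 : ℤ) + pos (φ j.succ).1 - ((φ 0).2.1 : ℤ) - pos (φ 0).1) := by
            show ((φ j.succ).2.1 : ℤ) + (M j.succ + pos (φ j.succ).1) -
              (((φ 0).2.1 : ℤ) + (M 0 + pos (φ 0).1)) - m n j = _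
            rw [hM0]
            ring
          rw [e]
          have hqWZ : (q n : ℤ) ∣ (W : ℤ) := by exact_mod_cast hqW n hnt
          have h1 : ∀ l, (q n : ℤ) ∣ ((φ l).2.1 : ℤ) := fun l => hqWZ.trans (hB _ (φ l).2.2)
          have h2 : ∀ l, (q n : ℤ) ∣ pos (φ l).1 := fun l => hT.dv n le_rfl hnt _
          exact dvd_add (hMq j) (dvd_sub (dvd_sub (dvd_add (h1 _) (h2 _)) (h1 _)) (h2 _))
        · have hyinj : ∀ l l', y φ l = y φ l' → l = l' := by
            intro l l' h
            by_contra hne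
            have h1 := hMsep l l' hne
            have h2 := hR' (φ l').1 (φ l).1 (φ l').2.1 (φ l').2.2 (φ l).2.1 (φ l).2.2
            have h' : ((φ l).2.1 : ℤ) + (M l + pos (φ l).1) = ((φ l').2.1 : ℤ) + (M l' + pos (φ l').1) := h
            have e : M l - M l' = (((φ l').2.1 : ℤ) + pos (φ l').1) - (((φ l).2.1 : ℤ) + pos (φ l).1) := by
              linarith
            rw [e] at h1
            linarith
          have hcons : (Fin.cons 0 (a φ) : Fin (k + 1) → ℤ) = fun l => y φ l - y φ 0 := by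
            funext l
            refine Fin.cases ?_ (fun l => ?_) l
            · rw [Fin.cons_zero, sub_self]
            · rw [Fin.cons_succ]
          rw [hcons]
          intro l l' h
          apply hyinj
          have h' : y φ l - y φ 0 = y φ l' - y φ 0 := h
          linarith
      obtain ⟨N2, hN2⟩ : ∃ N2 : ℕ, ∀ φ : Φ, ∀ i : Fin r, ∀ N : ℕ,
          ((N.Prime ∧ c N = i) ∧ ∀ j, PC c i N (a φ j)) → N ≤ N2 := by
        have hfin : (⋃ φ : Φ, ⋃ i : Fin r,
            {N : ℕ | (N.Prime ∧ c N = i) ∧ ∀ j, PC c i N (a φ j)}).Finite := by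
          refine Set.finite_iUnion fun φ => Set.finite_iUnion fun i => ?_
          by_contra hcon
          exact hbadφ φ ⟨i, hcon⟩
        obtain ⟨N2, hN2⟩ := hfin.bddAbove
        refine ⟨N2, fun φ i N hN => ?_⟩
        apply hN2
        simp only [Set.mem_iUnion]
        exact ⟨φ, i, hN⟩
      refine ⟨|N0| + ∑ l, |M l| + N2 + R + 1, fun z hz i => ?_⟩
      have hMs : ∀ l, |M l| ≤ ∑ l, |M l| := fun l =>
        Finset.single_le_sum (f := fun l => |M l|) (fun _ _ => abs_nonneg _) (mem_univ l)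
      have hsum0 : 0 ≤ ∑ l, |M l| := Finset.sum_nonneg fun _ _ => abs_nonneg _
      have hzN : ∀ l, N0 ≤ z + M l := by
        intro l
        have h1 := hMs l
        have h2 := neg_abs_le (M l)
        have h3 := le_abs_self N0
        have h4 : (0 : ℤ) ≤ N2 := Int.natCast_nonneg _
        have h5 : (0 : ℤ) ≤ R := Int.natCast_nonneg _
        linarith
      by_cases hall : ∀ l : Fin (k + 1), ∃ (d : Lf k n) (β : {β // β ∈ B0}),
          PY c i (z + ((β : ℤ) + (M l + pos d)))
      · exfalso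
        choose d β hdβ using hall
        have h1 := hR (d 0) (β 0).1 (β 0).2
        have h2 := abs_le.1 h1
        have hy0 : y (fun l => (d l, β l)) 0 = ((β 0 : ℤ) + (M 0 + pos (d 0))) := rfl
        obtain ⟨N, hN⟩ : ∃ N : ℕ, (N : ℤ) = z + ((β 0 : ℤ) + (M 0 + pos (d 0))) := by
          refine ⟨(z + ((β 0 : ℤ) + (M 0 + pos (d 0)))).toNat, Int.toNat_of_nonneg ?_⟩
          rw [hM0]
          have h3 := abs_nonneg N0
          have h4 : (0 : ℤ) ≤ N2 := Int.natCast_nonneg _
          linarith [h2.1]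
        have h5 := hN2 (fun l => (d l, β l)) i N ⟨?_, fun j => ?_⟩
        · have h6 : (N : ℤ) ≤ N2 := by exact_mod_cast h5
          rw [hN, hM0] at h6
          have h3 := abs_nonneg N0
          linarith [h2.1]
        · have h6 := hdβ 0
          rw [← hN] at h6
          unfold PY at h6
          rw [Int.toNat_natCast] at h6
          exact h6
        · have h6 := hdβ j.succ
          unfold PC
          unfold PY at h6
          have e : (N : ℤ) + a (fun l => (d l, β l)) j = z + ((β j.succ : ℤ) + (M j.succ + pos (d j.succ))) := by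
            rw [hN]
            show z + ((β 0 : ℤ) + (M 0 + pos (d 0))) + (((β j.succ : ℤ) + (M j.succ + pos (d j.succ))) -
              ((β 0 : ℤ) + (M 0 + pos (d 0)))) = _
            ring
          rw [e]
          exact h6
      · push Not at hall
        obtain ⟨l0, hl0⟩ := hall
        have hsub : (univ.filter (fun d : Lf k (n + 1) => ∃ β ∈ B0, PY c i (z + (β + (M d.1 + pos d.2))))) ⊆
            ((univ : Finset (Fin (k + 1))).erase l0).biUnion (fun l =>
              (univ.filter (fun d : Lf k n => ∃ β ∈ B0, PY c i ((z + M l) + (β + pos d)))).image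
                (fun d => ((l, d) : Lf k (n + 1)))) := by
          intro d hd
          obtain ⟨β, hβ, hP⟩ := (mem_filter.1 hd).2
          rw [mem_biUnion]
          refine ⟨d.1, mem_erase.2 ⟨?_, mem_univ _⟩, mem_image.2 ⟨d.2, mem_filter.2 ⟨mem_univ _, β, hβ, ?_⟩, rfl⟩⟩
          · intro h
            apply hl0 d.2 ⟨β, hβ⟩
            rw [← h]
            exact hP
          · have e : (z + M d.1) + (β + pos d.2) = z + (β + (M d.1 + pos d.2)) := by ring
            rw [e]
            exact hP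
        refine (card_le_card hsub).trans (card_biUnion_le.trans ?_)
        calc _ ≤ ∑ _l ∈ (univ : Finset (Fin (k + 1))).erase l0, k ^ n :=
              Finset.sum_le_sum fun l _ => card_image_le.trans (hN0 _ (hzN l) i)
          _ = k ^ (n + 1) := by
              rw [sum_const, card_erase_of_mem (mem_univ _), card_univ, Fintype.card_fin, smul_eq_mul,
                Nat.add_sub_cancel, pow_succ, mul_comm]

/-- a residue class modulo a prime which is larger than the number of the elements -/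
theorem miss_class (p : ℕ) (hp : p.Prime) (U : Finset ℤ) (hU : U.card < p) :
    ∃ b : ℤ, ∀ x ∈ U, ¬ (p : ℤ) ∣ b + x := by
  classical
  have hp0 : (0 : ℤ) < p := by exact_mod_cast hp.pos
  set E : Finset ℕ := U.image (fun h : ℤ => ((-h) % p).toNat) with hE
  have hEcard : E.card < p := card_image_le.trans_lt hU
  obtain ⟨a, ha, haE⟩ : ∃ a ∈ range p, a ∉ E := by
    by_contra hcon2
    push Not at hcon2
    have h1 : (range p).card ≤ E.card := card_le_card hcon2
    rw [card_range] at h1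
    omega
  refine ⟨(a : ℤ), fun h hh hdv => haE ?_⟩
  rw [hE, mem_image]
  refine ⟨h, hh, ?_⟩
  have h1 : (-h) % (p : ℤ) = (a : ℤ) % (p : ℤ) := by
    apply Int.emod_eq_emod_iff_emod_sub_eq_zero.2
    rw [← Int.dvd_iff_emod_eq_zero]
    have e : -h - a = -((a : ℤ) + h) := by ring
    rw [e]
    exact (dvd_neg).2 hdv
  rw [h1, Int.emod_eq_of_lt (Int.natCast_nonneg a) (by exact_mod_cast mem_range.1 ha)]
  simp

/-- Chains of bad classes are short (level `0` is the innermost one). -/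
theorem chain_nat {r k : ℕ} (c : ℕ → Fin r) (t : ℕ) (ht : 50 * r * k ^ t < 13 * (k + 1) ^ t)
    (q : ℕ → ℕ) (hq : ∀ i, 0 < q i) (m : ℕ → Fin k → ℤ) (hloc : ∀ i < t, Loc (q i) (m i))
    (hg : ∀ i j, i < j → j < t → ∀ l, ((Nat.gcd (q i) (q j) : ℕ) : ℤ) ∣ m i l) :
    ∃ i < t, SynK c (q i) (m i) := by
  classical
  by_contra hcon
  have hbad : ∀ i < t, ¬ SynK c (q i) (m i) := by
    push Not at hcon
    exact hcon
  obtain ⟨n, hn⟩ : ∃ n : ℕ, n = (k + 1) ^ t := ⟨_, rfl⟩
  have hn1 : 1 ≤ n := by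
    rw [hn]
    exact Nat.one_le_pow _ _ (Nat.succ_pos k)
  have hnR : (0 : ℝ) < n := by exact_mod_cast hn1
  obtain ⟨η, hη⟩ : ∃ η : ℝ, η = (13 / 50 - r * k ^ t / n) / 2 := ⟨_, rfl⟩
  have hη0 : 0 < η := by
    rw [hη]
    apply div_pos _ (by norm_num)
    rw [sub_pos, div_lt_iff₀ hnR]
    have h1 : (50 * r * k ^ t : ℝ) < 13 * n := by
      rw [hn]
      exact_mod_cast ht
    linarith
  obtain ⟨s, hs, hblk⟩ := blk_chen (13 / 50) Q2 n (med n hn1) η hη0
  obtain ⟨K0, hK0⟩ : ∃ K0 : ℕ, K0 = n * s := ⟨_, rfl⟩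
  obtain ⟨W, hW⟩ : ∃ W : ℕ, W = K0.factorial * ∏ i ∈ range t, q i := ⟨_, rfl⟩
  have hW0 : 0 < W := by
    rw [hW]
    exact Nat.mul_pos (Nat.factorial_pos _) (Finset.prod_pos fun i _ => hq i)
  have hqW : ∀ i < t, q i ∣ W := by
    intro i hi
    rw [hW]
    exact Dvd.dvd.mul_left (Finset.dvd_prod_of_mem q (mem_range.2 hi)) _
  have hpW : ∀ p : ℕ, p.Prime → p ≤ K0 → (p : ℤ) ∣ (W : ℤ) := by
    intro p hp hpK
    have h1 : p ∣ W := by
      rw [hW]
      exact Dvd.dvd.mul_right (Nat.dvd_factorial hp.pos hpK) _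
    exact_mod_cast h1
  obtain ⟨B0, hB0⟩ : ∃ B0 : Finset ℤ, B0 = (range s).image (fun i : ℕ => (W : ℤ) * i) := ⟨_, rfl⟩
  have hW0Z : (0 : ℤ) < W := by exact_mod_cast hW0
  have hB0W : ∀ β ∈ B0, (W : ℤ) ∣ β := by
    intro β hβ
    rw [hB0, mem_image] at hβ
    obtain ⟨i, _, rfl⟩ := hβ
    exact dvd_mul_right _ _
  have hB0card : B0.card = s := by
    rw [hB0, card_image_of_injective, card_range]
    intro i j hij
    have h1 : (W : ℤ) * (i : ℤ) = (W : ℤ) * (j : ℤ) := hij
    exact_mod_cast mul_left_cancel₀ hW0Z.ne' h1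
  obtain ⟨pos, hpos⟩ := tree_exists c K0 B0 W hB0W t q hq hqW m hloc hg hbad t le_rfl
  obtain ⟨N0, hN0⟩ := hpos.ht
  -- the blocks
  have hcardL : Fintype.card (Lf k t) = n := by rw [card_Lf, hn]
  let e : Fin n ≃ Lf k t := (Fintype.equivFinOfCardEq hcardL).symm
  let V : Fin n → Finset ℤ := fun j => B0.image (fun β => β + pos (e j))
  have hVm : ∀ j y, y ∈ V j ↔ ∃ β ∈ B0, β + pos (e j) = y := by
    intro j y
    show y ∈ B0.image (fun β => β + pos (e j)) ↔ _
    rw [mem_image]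
  have hVcard : ∀ j, (V j).card = s := by
    intro j
    show (B0.image (fun β => β + pos (e j))).card = s
    rw [card_image_of_injective _ (add_left_injective _), hB0card]
  obtain ⟨T, μ, hT0, hμ0, hμ1, -, -, hμ4, -⟩ := hblk V (by
      intro j j' hjj
      rw [disjoint_left]
      intro y hy hy'
      obtain ⟨β, hβ, rfl⟩ := (hVm _ _).1 hy
      obtain ⟨β', hβ', he⟩ := (hVm _ _).1 hy'
      exact hpos.dj _ _ (fun h => hjj (e.injective h)) β hβ β' hβ' he.symm)
    hVcard (by
      intro p hp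
      by_cases hpK : p ≤ K0
      · obtain ⟨b, hb⟩ := hpos.ad p hp hpK
        refine ⟨b, fun j x hx hd => ?_⟩
        obtain ⟨β, hβ, rfl⟩ := (hVm _ _).1 hx
        apply hb (e j)
        have e1 : b + (β + pos (e j)) = (b + pos (e j)) + β := by ring
        rw [e1] at hd
        exact (dvd_add_left ((hpW p hp hpK).trans (hB0W β hβ))).1 hd
      · obtain ⟨b, hb⟩ := miss_class p hp (univ.biUnion V) (by
          refine card_biUnion_le.trans_lt ?_
          rw [Finset.sum_congr rfl fun j _ => hVcard j, sum_const, card_univ, Fintype.card_fin,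
            smul_eq_mul]
          omega)
        exact ⟨b, fun j x hx => hb x (mem_biUnion.2 ⟨j, mem_univ _, hx⟩)⟩)
    0 N0.toNat
  -- double counting
  have h1 : (n : ℝ) * (13 / 50 - η) ≤ r * k ^ t := by
    calc (n : ℝ) * (13 / 50 - η) = ∑ _j : Fin n, (13 / 50 - η) := by
          rw [sum_const, card_univ, Fintype.card_fin, nsmul_eq_mul]
      _ ≤ ∑ j : Fin n, ∑ N ∈ T.filter (fun N : ℕ => ∃ x ∈ V j, ((N : ℤ) + x).toNat.Prime), μ N := by
          refine sum_le_sum fun j _ => (hμ4 j).trans (le_of_eq ?_)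
          apply sum_congr _ fun _ _ => rfl
          ext N
          simp only [mem_filter]
      _ = ∑ N ∈ T, ∑ j : Fin n, (if ∃ x ∈ V j, ((N : ℤ) + x).toNat.Prime then μ N else 0) := by
          rw [sum_comm]
          refine sum_congr rfl fun j _ => ?_
          rw [sum_filter]
      _ ≤ ∑ N ∈ T, (r * k ^ t : ℝ) * μ N := by
          refine sum_le_sum fun N hN => ?_
          rw [← sum_filter, sum_const, nsmul_eq_mul]
          refine mul_le_mul_of_nonneg_right ?_ (hμ0 N)
          have h2 : (univ.filter fun j => ∃ x ∈ V j, ((N : ℤ) + x).toNat.Prime) ⊆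
              (univ : Finset (Fin r)).biUnion (fun i =>
                (univ.filter (fun d => ∃ β ∈ B0, PY c i ((N : ℤ) + (β + pos d)))).image e.symm) := by
            intro j hj
            obtain ⟨x, hx, hxp⟩ := (mem_filter.1 hj).2
            obtain ⟨β, hβ, rfl⟩ := (hVm _ _).1 hx
            rw [mem_biUnion]
            refine ⟨c ((N : ℤ) + (β + pos (e j))).toNat, mem_univ _, mem_image.2 ⟨e j, ?_, ?_⟩⟩
            · exact mem_filter.2 ⟨mem_univ _, β, hβ, hxp, rfl⟩
            · exact e.symm_apply_apply j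
          have h3 : (univ.filter fun j => ∃ x ∈ V j, ((N : ℤ) + x).toNat.Prime).card ≤ r * k ^ t := by
            refine (card_le_card h2).trans (card_biUnion_le.trans ?_)
            calc _ ≤ ∑ _i : Fin r, k ^ t := by
                  refine sum_le_sum fun i _ => card_image_le.trans (hN0 N ?_ i)
                  have h4 := hT0 N hN
                  have h5 : N0 ≤ (N0.toNat : ℤ) := Int.self_le_toNat _
                  have h6 : ((N0.toNat : ℕ) : ℤ) < N := by exact_mod_cast h4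
                  linarith
              _ = r * k ^ t := by rw [sum_const, card_univ, Fintype.card_fin, smul_eq_mul]
          exact_mod_cast h3
      _ = r * k ^ t := by rw [← mul_sum, hμ1, mul_one]
  have h2 : (r * k ^ t : ℝ) / n = 13 / 50 - 2 * η := by rw [hη]; ring
  rw [div_eq_iff hnR.ne'] at h2
  have h3 : 0 < (n : ℝ) * η := mul_pos hnR hη0
  linarith

/-- every locally admissible class modulo `q` is good -/
def GoodMod {r : ℕ} (c : ℕ → Fin r) (k q : ℕ) : Prop := ∀ m : Fin k → ℤ, Loc q m → SynK c q m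

/-- Any `t` pairwise coprime moduli contain a good one. -/
theorem any_t {r k : ℕ} (c : ℕ → Fin r) (t : ℕ) (ht : 50 * r * k ^ t < 13 * (k + 1) ^ t)
    (q : Fin t → ℕ) (hq : ∀ i, 0 < q i) (hco : ∀ i j, i ≠ j → Nat.Coprime (q i) (q j)) :
    ∃ i, GoodMod c k (q i) := by
  classical
  by_contra hcon
  push Not at hcon
  have h1 : ∀ i, ∃ m : Fin k → ℤ, Loc (q i) m ∧ ¬ SynK c (q i) m := by
    intro i
    have := hcon i
    unfold GoodMod at this
    push Not at this
    exact this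
  choose m hm1 hm2 using h1
  obtain ⟨i, hi, h2⟩ := chain_nat c t ht (fun i => if h : i < t then q ⟨i, h⟩ else 1)
    (fun i => by
      by_cases h : i < t
      · simp only [dif_pos h]
        exact hq _
      · simp only [dif_neg h]
        exact one_pos)
    (fun i => if h : i < t then m ⟨i, h⟩ else 0)
    (fun i hi => by
      simp only [dif_pos hi]
      exact hm1 _)
    (fun i j hij hj l => by
      simp only [dif_pos hj, dif_pos (hij.trans hj)]
      have h3 : Nat.gcd (q ⟨i, hij.trans hj⟩) (q ⟨j, hj⟩) = 1 :=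
        hco _ _ (fun h => by
          have := congrArg Fin.val h
          simp only at this
          omega)
      rw [h3, Nat.cast_one]
      exact one_dvd _)
  simp only [dif_pos hi] at h2
  exact hm2 _ h2

/-- There is `q₀ > 0` such that every locally admissible class `m` modulo `Q` with `gcd(Q, q₀) ∣ m_l` for all `l` is
good; in particular all locally admissible classes modulo all `Q` prime to `q₀`. -/
theorem exists_q0 {r k : ℕ} (c : ℕ → Fin r) (hk : 1 ≤ k) : ∃ q₀ : ℕ, 0 < q₀ ∧ ∀ (Q : ℕ) (m : Fin k → ℤ),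
    0 < Q → Loc Q m → (∀ l, ((Nat.gcd Q q₀ : ℕ) : ℤ) ∣ m l) → SynK c Q m := by
  classical
  -- `t` exists
  obtain ⟨t, ht⟩ : ∃ t : ℕ, 50 * r * k ^ t < 13 * (k + 1) ^ t := by
    have hk0 : (0 : ℝ) < k := by exact_mod_cast hk
    have h1 : (1 : ℝ) < ((k : ℝ) + 1) / k := by
      rw [lt_div_iff₀ hk0]
      linarith
    obtain ⟨t, ht⟩ := pow_unbounded_of_one_lt ((50 * r : ℝ) / 13) h1
    refine ⟨t, ?_⟩
    rw [div_pow, lt_div_iff₀ (pow_pos hk0 t), div_mul_eq_mul_div, div_lt_iff₀ (by norm_num)] at ht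
    have h2 : (50 * r * k ^ t : ℝ) < 13 * (k + 1) ^ t := by linarith
    exact_mod_cast h2
  -- a maximal chain
  let P : ℕ → Prop := fun n => ∃ (q : ℕ → ℕ) (m : ℕ → Fin k → ℤ), (∀ i, 0 < q i) ∧
    (∀ i < n, Loc (q i) (m i)) ∧ (∀ i j, i < j → j < n → ∀ l, ((Nat.gcd (q i) (q j) : ℕ) : ℤ) ∣ m i l) ∧
    ∀ i < n, ¬ SynK c (q i) (m i)
  have hPt : ¬ P t := by
    rintro ⟨q, m, h1, h2, h3, h4⟩
    obtain ⟨i, hi, h5⟩ := chain_nat c t ht q h1 m h2 h3
    exact h4 i hi h5
  have hP0 : P 0 := ⟨fun _ => 1, fun _ _ => 0, fun _ => one_pos, fun i hi => absurd hi (by omega),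
    fun i j _ hj => absurd hj (by omega), fun i hi => absurd hi (by omega)⟩
  obtain ⟨n, hn1, hn2⟩ : ∃ n, P n ∧ ¬ P (n + 1) := by
    by_contra hcon
    push Not at hcon
    have h1 : ∀ n, P n := by
      intro n
      induction n with
      | zero => exact hP0
      | succ n ih => exact hcon n ih
    exact hPt (h1 t)
  obtain ⟨q, m, h1, h2, h3, h4⟩ := hn1
  refine ⟨∏ i ∈ range n, q i, Finset.prod_pos fun i _ => h1 i, fun Q m' hQ hloc hg => ?_⟩
  by_contra hbad
  apply hn2
  refine ⟨fun i => Nat.casesOn i Q q, fun i => Nat.casesOn i m' m, ?_, ?_, ?_, ?_⟩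
  · intro i
    cases i with
    | zero => exact hQ
    | succ i => exact h1 i
  · intro i hi
    cases i with
    | zero => exact hloc
    | succ i => exact h2 i (by omega)
  · intro i j hij hj l
    cases j with
    | zero => exact absurd hij (by omega)
    | succ j =>
      cases i with
      | zero =>
        have h5 : Nat.gcd Q (q j) ∣ Nat.gcd Q (∏ i ∈ range n, q i) :=
          Nat.gcd_dvd_gcd_of_dvd_right _ (Finset.dvd_prod_of_mem q (mem_range.2 (by omega)))
        have h6 : ((Nat.gcd Q (q j) : ℕ) : ℤ) ∣ ((Nat.gcd Q (∏ i ∈ range n, q i) : ℕ) : ℤ) := by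
          exact_mod_cast h5
        exact h6.trans (hg l)
      | succ i => exact h3 i j (by omega) (by omega) l
  · intro i hi
    cases i with
    | zero => exact hbad
    | succ i => exact h4 i (by omega)

/-- All primes with at most `t - 1` exceptions. -/
theorem few_primes {r k : ℕ} (c : ℕ → Fin r) (t : ℕ) (ht : 50 * r * k ^ t < 13 * (k + 1) ^ t) :
    ∃ S : Finset ℕ, S.card < t ∧ ∀ p : ℕ, p.Prime → p ∉ S → ∀ e : ℕ, GoodMod c k (p ^ e) := by
  classical
  let Bad : Set ℕ := {p | p.Prime ∧ ∃ e : ℕ, ¬ GoodMod c k (p ^ e)}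
  have key : ∀ S : Finset ℕ, (∀ p ∈ S, p ∈ Bad) → S.card < t := by
    intro S hS
    by_contra hcon
    push Not at hcon
    obtain ⟨S', hS', hcard⟩ := exists_subset_card_eq hcon
    let f : Fin t ≃ S' := (S'.equivFinOfCardEq hcard).symm
    have hf : ∀ i, ((f i : ℕ)) ∈ Bad := fun i => hS _ (hS' (f i).2)
    choose e he using fun i => (hf i).2
    obtain ⟨i, hi⟩ := any_t c t ht (fun i => (f i : ℕ) ^ e i) (fun i => pow_pos (hf i).1.pos _) (by
      intro i j hij
      refine Nat.Coprime.pow _ _ ((Nat.coprime_primes (hf i).1 (hf j).1).2 ?_)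
      intro h
      exact hij (f.injective (Subtype.ext h)))
    exact he i hi
  have hfin : Bad.Finite := by
    by_contra hinf
    obtain ⟨S, hS1, hS2⟩ := Set.Infinite.exists_subset_card_eq (Set.not_finite.1 hinf) t
    have := key S (fun p hp => hS1 hp)
    omega
  refine ⟨hfin.toFinset, key _ (fun p hp => hfin.mem_toFinset.1 hp), fun p hp hpS e => ?_⟩
  by_contra hcon
  exact hpS (hfin.mem_toFinset.2 ⟨hp, e, hcon⟩)

end Pool.Agent.H72.LP
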